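import Pool.Agent.Helper84.QB.Acts
import Pool.Agent.Helper45.QB.Ring1
import Pool.Agent.Helper46.QB.Ring2

/-!
# Project QB, module C: fresh places
-/

set_option autoImplicit false

namespace Pool.Agent.Helper33.QB

open Set

universe v

variable {Ω : Type} {I : Type v}

section C

/-- A small neighbourhood avoids finitely many closed sets. -/
theorem h5f_avoid {Y : Set Ω} {R : Set (Set Ω)} {r : Ω → Ordinal.{0}} (hY : GR Y R r) {b : Ω}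
    {V0 : Set Ω} (hV0 : V0 ∈ R) (hb : b ∈ V0) {ι : Type v} {Γ : Set ι} (hΓ : Γ.Finite)
    {E : ι → Set Ω} : (∀ g ∈ Γ, Cl Y R (E g) ∧ b ∉ E g) →
    ∃ V ∈ R, V ⊆ V0 ∧ b ∈ V ∧ ∀ g ∈ Γ, V ∩ E g = ∅ := by
  induction Γ, hΓ using Set.Finite.induction_on with
  | empty => exact fun _ => ⟨V0, hV0, subset_rfl, hb, fun g hg => absurd hg (notMem_empty g)⟩
  | @insert a s ha hs ih =>
    intro hE
    obtain ⟨V, hVR, hV0', hbV, hV⟩ := ih fun g hg => hE g (mem_insert_of_mem _ hg)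
    obtain ⟨h1, h2⟩ := hE a (mem_insert _ _)
    obtain ⟨K, hK, hbK, hKE⟩ := h1.2 b (hY.sub V0 hV0 hb) h2
    refine ⟨V ∩ K, hY.inter hVR hK, inter_subset_left.trans hV0', ⟨hbV, hbK⟩, ?_⟩
    intro g hg
    rcases mem_insert_iff.1 hg with rfl | hg
    · rw [← subset_empty_iff, ← hKE]
      exact inter_subset_inter_left _ inter_subset_right
    · rw [← subset_empty_iff, ← hV g hg]
      exact inter_subset_inter_left _ inter_subset_left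

variable {Y : Set Ω} {R : Set (Set Ω)} {r : Ω → Ordinal.{0}} {G : I → Ω → Ω → Prop}

/-- (1) A neighbourhood which misses all translates. -/
theorem h5f_miss (hY : GR Y R r) (hPF : PF G) (hC : ClSys Y R G) (hP : Proper R G) {K : Set Ω}
    (hK : K ∈ R) {b : Ω} (hbY : b ∈ Y) (hb : ∀ x ∈ K, ∀ g, ¬ Acts G g x b) {V1 : Set Ω}
    (hV1 : V1 ∈ R) (hbV1 : b ∈ V1) :
    ∃ V ∈ R, V ⊆ V1 ∧ b ∈ V ∧ ∀ y ∈ V, ∀ x ∈ K, ∀ g, ¬ Acts G g x y := by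
  have hfin := hP (K ∪ V1) (hY.un K hK V1 hV1)
  obtain ⟨V, hVR, hVV, hbV, hV⟩ := h5f_avoid hY hV1 hbV1 hfin
    (E := fun g => {y | ∃ x ∈ K, Acts G g x y}) fun g _ =>
      ⟨Acts.closed hPF hC (Cl.of_mem hY hK) g, fun ⟨x, hx, h⟩ => hb x hx g h⟩
  refine ⟨V, hVR, hVV, hbV, ?_⟩
  intro y hy x hx g hg
  have h1 := hV g ⟨x, Or.inl hx, y, Or.inr (hVV hy), hg⟩
  have h2 : y ∈ V ∩ {y | ∃ x ∈ K, Acts G g x y} := ⟨hy, x, hx, hg⟩
  rw [h1] at h2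
  exact h2

/-- (2) Points of large rank are limits of points outside the translates. -/
theorem h5f_claim (hY : GR Y R r) (hPF : PF G) (hC : ClSys Y R G)
    (hP : Proper R G) {B : Set Ω} {rB : Ω → Ordinal.{0}} (hrB : GR B (tr R B) rB)
    {ρ : Ordinal.{0}} {K : Set Ω} (hK : K ∈ R) {V : Set Ω} (hV : V ∈ R)
    (hcon : ∀ y ∈ V ∩ B, ρ ≤ rB y → ∃ x ∈ K, ∃ g, Acts G g x y) :
    ∀ μ : Ordinal.{0}, ∀ y ∈ V ∩ B, ρ ≤ rB y → (∀ x ∈ K, ∀ g, Acts G g x y → r x ≤ μ) →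
      rB y ≤ ρ + μ := by
  intro μ
  induction μ using WellFoundedLT.induction with
  | ind μ ih =>
    intro y hy hρy hμ
    by_contra hlt
    rw [not_le] at hlt
    have hfin := hP (K ∪ V) (hY.un K hK V hV)
    -- the sets to be avoided
    have hex : ∀ g : FreeGroup I, ∃ E : Set Ω, Cl Y R E ∧ y ∉ E ∧
        ∀ x' ∈ K, ∀ y', Acts G g x' y' → y' ∉ E → y' ≠ y → ∃ x ∈ K, Acts G g x y ∧ r x' < r x := by
      intro g
      by_cases hg : ∃ x ∈ K, Acts G g x y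
      · obtain ⟨x, hx, hxy⟩ := hg
        obtain ⟨U, hU, hUK, hxU, hUr⟩ := hY.nbhd hK hx
        refine ⟨{z | ∃ w ∈ K \ U, Acts G g w z},
          Acts.closed hPF hC (Cl.of_mem hY (hY.df K hK U hU)) g, ?_, ?_⟩
        · rintro ⟨w, hw, hwy⟩
          have := Acts.unique' hPF hwy hxy
          subst this
          exact hw.2 hxU
        · intro x' hx' y' hxy' hyE hne
          refine ⟨x, hx, hxy, hUr x' ?_ ?_⟩
          · by_contra hU'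
            exact hyE ⟨x', ⟨hx', hU'⟩, hxy'⟩
          · rintro rfl
            exact hne (Acts.unique hPF hxy' hxy)
      · refine ⟨{z | ∃ w ∈ K, Acts G g w z}, Acts.closed hPF hC (Cl.of_mem hY hK) g, ?_, ?_⟩
        · rintro ⟨w, hw, hwy⟩
          exact hg ⟨w, hw, hwy⟩
        · intro x' hx' y' hxy' hyE _
          exact absurd ⟨x', hx', hxy'⟩ hyE
    choose E hE1 hE2 hE3 using hex
    obtain ⟨V', hV'R, hV'V, hyV', hV'⟩ := h5f_avoid hY hV hy.1 hfin (E := E)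
      fun g _ => ⟨hE1 g, hE2 g⟩
    obtain ⟨y', hy', hne, hρy'⟩ := hrB.ex (V' ∩ B) ⟨V', hV'R, rfl⟩ y ⟨hyV', hy.2⟩ (ρ + μ) hlt
    have hy'V : y' ∈ V ∩ B := ⟨hV'V hy'.1, hy'.2⟩
    have hρ' : ρ ≤ rB y' := (le_self_add).trans hρy'
    have hsm : ∀ x' ∈ K, ∀ g, Acts G g x' y' → r x' < μ := by
      intro x' hx' g hg
      have hgΓ := hV' g ⟨x', Or.inl hx', y', Or.inr hy'V.1, hg⟩
      have hyE : y' ∉ E g := by
        intro h
        have h2 : y' ∈ V' ∩ E g := ⟨hy'.1, h⟩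
        rw [hgΓ] at h2
        exact h2
      obtain ⟨x, hx, hxy, hlt'⟩ := hE3 g x' hx' y' hg hyE hne
      exact hlt'.trans_le (hμ x hx g hxy)
    -- the maximal rank
    have hOfin : {x | x ∈ K ∧ ∃ g, Acts G g x y'}.Finite := by
      refine (hfin.biUnion (t := fun g => {x | Acts G g x y'}) fun g _ => ?_).subset ?_
      · exact Set.Subsingleton.finite fun a ha b hb => Acts.unique' hPF ha hb
      · rintro x ⟨hx, g, hg⟩
        exact mem_biUnion (x := g) ⟨x, Or.inl hx, y', Or.inr hy'V.1, hg⟩ hg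
    obtain ⟨x0, hx0, g0, hg0⟩ := hcon y' hy'V hρ'
    obtain ⟨x1, hx1, hmax⟩ := Set.exists_max_image _ r hOfin ⟨x0, hx0, g0, hg0⟩
    obtain ⟨hx1K, g1, hg1⟩ := hx1
    have h3 := ih (r x1) (hsm x1 hx1K g1 hg1) y' hy'V hρ' fun x hx g hg => hmax x ⟨hx, g, hg⟩
    have h4 : ρ + r x1 < ρ + μ := by
      exact (add_lt_add_iff_left ρ).2 (hsm x1 hx1K g1 hg1)
    exact absurd (h3.trans_lt h4) (not_lt.2 hρy')

theorem fresh {α : Ordinal.{0}} (hα : Ind α) {Y : Set Ω} {R : Set (Set Ω)}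
    {r : Ω → Ordinal.{0}} (hY : GR Y R r) (hr : ∀ x ∈ Y, r x < α) {G : I → Ω → Ω → Prop}
    (hPF : PF G) (hC : ClSys Y R G) (hF : Free G) (hP : Proper R G) {B : Set Ω}
    {rB : Ω → Ordinal.{0}} (hB : Cl Y R B) (hrB : GR B (tr R B) rB) (hT : Tall α R B rB)
    {ρ : Ordinal.{0}} (hρ : ρ < α) {K : Set Ω} (hK : K ∈ R) :
    ∃ X, Piece (tr R B) rB ρ X ∧ X ∩ K = ∅ ∧ (∀ x ∈ X, ∀ y ∈ K, ∀ g, ¬ Acts G g x y) ∧
      ∀ x ∈ X, ∀ y ∈ X, ∀ g, Acts G g x y → g = 1 := by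
  -- the maximal rank of `K`
  obtain ⟨κ, hκ, hκK⟩ : ∃ κ, κ < α ∧ ∀ x ∈ K, r x ≤ κ := by
    rcases K.eq_empty_or_nonempty with h | h
    · exact ⟨0, zero_lt_one.trans hα.one, fun x hx => by rw [h] at hx; exact absurd hx (by simp)⟩
    · obtain ⟨x, hx, h1, _⟩ := hY.top K hK h
      exact ⟨r x, hr x (hY.sub K hK hx), h1⟩
  have hκ1 : ρ + (κ + 1) < α := hα.add _ hρ _ (hα.add _ hκ _ hα.one)
  obtain ⟨b, hbB, _, hbr⟩ := hT _ hκ1 K hK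
  have hbY : b ∈ Y := hB.1 hbB
  obtain ⟨V0, hV0, hbV0⟩ := hY.cov b hbY
  -- a point outside the translates
  obtain ⟨b', hb'V, hb'r, hb'⟩ : ∃ b' ∈ V0 ∩ B, ρ ≤ rB b' ∧ ∀ x ∈ K, ∀ g, ¬ Acts G g x b' := by
    by_contra hcon
    push Not at hcon
    have h1 := h5f_claim hY hPF hC hP hrB hK hV0 hcon κ b ⟨hbV0, hbB⟩
      (le_self_add.trans hbr) fun x hx g _ => hκK x hx
    have h2 : ρ + κ < ρ + (κ + 1) := (add_lt_add_iff_left ρ).2 (Order.lt_add_one_iff.2 le_rfl)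
    exact absurd (hbr.trans h1) (not_le.2 h2)
  obtain ⟨V, hV, _, hb'V', hVm⟩ := h5f_miss hY hPF hC hP hK (hB.1 hb'V.2) hb' hV0 hb'V.1
  obtain ⟨x, hx, hxr⟩ := hrB.exact (K := V ∩ B) ⟨V, hV, rfl⟩ ⟨hb'V', hb'V.2⟩ hb'r
  obtain ⟨K', ⟨W, hW, hK'W⟩, hK'V, hxK', hK'r⟩ := hrB.nbhd (K := V ∩ B) ⟨V, hV, rfl⟩ hx
  have hxW : x ∈ W := by
    rw [hK'W] at hxK'
    exact hxK'.1
  have hV1 : W ∩ V ∈ R := hY.inter hW hV
  have hxY : x ∈ Y := hB.1 hx.2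
  have hfin := (hP (W ∩ V) hV1).subset
    (diff_subset (s := {g | ∃ x ∈ W ∩ V, ∃ y ∈ W ∩ V, Acts G g x y}) (t := {1}))
  -- first shrinking
  obtain ⟨V2, hV2, hV2s, hxV2, hV2E⟩ := h5f_avoid hY hV1 ⟨hxW, hx.1⟩ hfin
    (E := fun g => {z | Acts G g z x}) (by
      intro g hg
      refine ⟨Cl.of_finite hY ?_ ?_, fun h => hg.2 (hF g x h)⟩
      · intro z hz
        refine (Acts.stay (A := Y) ?_ hz).2 hxY
        intro i x y hxy
        have := hC.1 i x y hxy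
        tauto
      · intro K _
        exact Set.Subsingleton.finite fun a ha b hb => Acts.unique' hPF ha.2 hb.2)
  -- second shrinking
  obtain ⟨V3, hV3, hV3s, hxV3, hV3E⟩ := h5f_avoid hY hV2 hxV2 hfin
    (E := fun g => {y | ∃ z ∈ V2, Acts G g z y}) (by
      intro g hg
      refine ⟨Acts.closed hPF hC (Cl.of_mem hY hV2) g, ?_⟩
      rintro ⟨z, hz, hzx⟩
      have h1 : z ∈ V2 ∩ {z | Acts G g z x} := ⟨hz, hzx⟩
      rw [hV2E g hg] at h1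
      exact h1)
  refine ⟨V3 ∩ B, ⟨⟨V3, hV3, rfl⟩, x, ⟨hxV3, hx.2⟩, hxr, ?_⟩, ?_, ?_, ?_⟩
  · intro y hy hne
    rw [← hxr]
    refine hK'r y ?_ hne
    rw [hK'W]
    exact ⟨(hV2s (hV3s hy.1)).1, hy.2⟩
  · rw [← subset_empty_iff]
    rintro y ⟨hy, hyK⟩
    exact hVm y (hV2s (hV3s hy.1)).2 y hyK 1 (Acts.one y)
  · intro y hy z hz g hg
    exact hVm y (hV2s (hV3s hy.1)).2 z hz g⁻¹ hg.inv
  · intro y hy z hz g hg
    by_contra hne
    have hgΓ : g ∈ {g | ∃ x ∈ W ∩ V, ∃ y ∈ W ∩ V, Acts G g x y} \ {1} :=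
      ⟨⟨y, hV2s (hV3s hy.1), z, hV2s (hV3s hz.1), hg⟩, hne⟩
    have h1 : z ∈ V3 ∩ {y | ∃ z ∈ V2, Acts G g z y} := ⟨hz.1, y, hV3s hy.1, hg⟩
    rw [hV3E g hgΓ] at h1
    exact h1

end C

end Pool.Agent.Helper33.QB
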