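import Pool.Agent.Helper84.QB.Acts
import Pool.Agent.Helper46.QB.Ring2
import Pool.Agent.Helper87.QB.Rank
import Pool.Agent.Helper61.QB.Order
import Pool.Agent.Helper64.QB.NmDefs
import Pool.Agent.Helper64.QB.Pigeon
import Pool.Agent.Helper18.QB.LimT

/-!
# Project QB (MP_0eabd7, Q2), module H2: the S-lemma
-/

set_option autoImplicit false

namespace Pool.Agent.Helper33.QB

open Set

universe v

variable {Ω : Type} {I : Type v} {α : Ordinal.{0}}

/-- The set of the statement: limit points of rank at least `ρ`, with bounded words. -/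
def h2_D (T : Cnd Ω I → Set Ω) (W : Finset (FreeGroup I)) (B : FreeGroup I → Ordinal.{0})
    (ρ : Ordinal.{0}) (q : Cnd Ω I) : Set Ω :=
  {x | x ∈ LimT T ρ q ∧ ∀ w ∈ W, ∃ y, Acts (Full q) w x y ∧ q.r y ≤ B w + ρ}

theorem h2_acts_mem {p : Cnd Ω I} (hp : Basic α p) {g : FreeGroup I} {x y : Ω}
    (h : Acts (Full p) g x y) (hx : x ∈ p.Y) : y ∈ p.Y := by
  induction h with
  | one x => exact hx
  | fwd h1 h2 ih =>
    obtain ⟨hi, hy, hz⟩ := h2
    rw [hz]
    exact (hp.ce _ hi).maps _ hy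
  | bwd h1 h2 ih => exact h2.2.1

theorem h2_D_nm {P : Set (Cnd Ω I)} (hb : ∀ p ∈ P, Basic α p) {T : Cnd Ω I → Set Ω}
    (hT : NmT P T) (W : Finset (FreeGroup I)) (B : FreeGroup I → Ordinal.{0})
    (ρ : Ordinal.{0}) : NmT P (h2_D T W B ρ) := by
  have hL := LimT.nm hb hT ρ
  refine ⟨fun p hp x hx => hL.1 p hp hx.1, fun p hp q hq hqp x hx => ?_⟩
  refine ⟨hL.2 p hp q hq hqp hx.1, fun w hw => ?_⟩
  obtain ⟨y, hy, hr⟩ := hx.2 w hw
  have hyp : y ∈ p.Y := h2_acts_mem (hb p hp) hy (hL.1 p hp hx.1)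
  refine ⟨y, Acts.mono hqp.full hy, ?_⟩
  rw [hqp.cp.rk y hyp]
  exact hr

/-- Iterated limit points. -/
theorem h2_limT_add {P : Set (Cnd Ω I)} (hb : ∀ p ∈ P, Basic α p) {T T' : Cnd Ω I → Set Ω}
    {ρ σ : Ordinal.{0}} (hT' : ∀ q ∈ P, T' q ⊆ LimT T ρ q) {q : Cnd Ω I} (hq : q ∈ P) :
    LimT T' σ q ⊆ LimT T (ρ + σ) q := by
  intro x hx
  refine ⟨hx.1, fun E hE hTE r' hr' => ?_⟩
  obtain ⟨h1, h2⟩ := rank_deriv hr' ρ
  have hcl : Cl q.Y q.R {x | x ∈ E ∧ ρ ≤ r' x} := Cl.trans hE h1 (hb q hq).gr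
  rw [tr_tr (fun x hx => hx.1)] at h2
  have hsub : T' q ⊆ {x | x ∈ E ∧ ρ ≤ r' x} := fun y hy => (hT' q hq hy).2 E hE hTE r' hr'
  obtain ⟨h3, h4⟩ := hx.2 _ hcl hsub _ h2
  refine ⟨h3.1, ?_⟩
  have h5 : ρ + σ ≤ ρ + (r' x - ρ) := by gcongr
  rw [Ordinal.add_sub_cancel_of_le h3.2] at h5
  exact h5

theorem h2_unb_le {P : Set (Cnd Ω I)} (hb : ∀ p ∈ P, Basic α p) {T : Cnd Ω I → Set Ω}
    {p p' : Cnd Ω I} (hp' : p' ∈ P) (hle : Le p' p) (hu : Unb P T p) : Unb P T p' :=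
  fun q hq hqp => hu q hq (Le.trans' (hb q hq) (hb p' hp') hqp hle)

/-- The pigeonhole principle for a finite list of words. -/
theorem h2_pigeon_list (hα : Ind α) {P : Set (Cnd Ω I)} (hb : ∀ p ∈ P, Basic α p) (hsc : SC P)
    (L : List (FreeGroup I)) :
    ∀ {T : Cnd Ω I → Set Ω}, NmT P T → ∀ {p : Cnd Ω I}, p ∈ P → Unb P T p →
    ∃ p' ∈ P, Le p' p ∧ ∃ T' : Cnd Ω I → Set Ω, NmT P T' ∧ (∀ q, T' q ⊆ T q) ∧ Unb P T' p' ∧
      ∀ w ∈ L, (∃ β, β < α ∧ ∀ q ∈ P, ∀ x ∈ T' q, ∃ y, Acts (Full q) w x y ∧ q.r y ≤ β) ∨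
        ∀ q ∈ P, ∀ x ∈ T' q, ∀ y, ¬ Acts (Full q) w x y := by
  induction L with
  | nil =>
    intro T hT p hp hu
    exact ⟨p, hp, Le.refl' (hb p hp).gr, T, hT, fun q => Subset.rfl, hu, fun w hw => by
      simp at hw⟩
  | cons a L ih =>
    intro T hT p hp hu
    obtain ⟨p1, hp1, hle1, T1, hT1, hsub1, hu1, h1⟩ := pigeon hα hb hsc hT hp hu a
    obtain ⟨p2, hp2, hle2, T2, hT2, hsub2, hu2, h2⟩ := ih hT1 hp1 hu1
    refine ⟨p2, hp2, Le.trans' (hb p2 hp2) (hb p1 hp1) hle2 hle1, T2, hT2,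
      fun q => (hsub2 q).trans (hsub1 q), hu2, fun w hw => ?_⟩
    rcases List.mem_cons.1 hw with rfl | hw
    · rcases h1 with ⟨β, hβ, h1⟩ | h1
      · exact Or.inl ⟨β, hβ, fun q hq x hx => h1 q hq x (hsub2 q hx)⟩
      · exact Or.inr fun q hq x hx => h1 q hq x (hsub2 q hx)
    · exact h2 w hw

/-- A nondecreasing cofinal sequence in a countable ordinal. -/
theorem h2_seq {ρ : Ordinal.{0}} (h0 : 0 < ρ) (hc : (Iio ρ).Countable) :
    ∃ f : ℕ → Ordinal.{0}, f 0 = 0 ∧ Monotone f ∧ (∀ n, f n < ρ) ∧ ∀ β < ρ, ∃ n, β ≤ f n := by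
  obtain ⟨e, he⟩ := hc.exists_eq_range ⟨0, h0⟩
  have hep : ∀ n, e n < ρ := fun n => by
    have : e n ∈ Iio ρ := he ▸ mem_range_self n
    exact this
  let f : ℕ → Ordinal.{0} := fun n => Nat.rec 0 (fun n x => max x (e n)) n
  have hf : ∀ n, f (n + 1) = max (f n) (e n) := fun n => rfl
  refine ⟨f, rfl, monotone_nat_of_le_succ fun n => ?_, fun n => ?_, fun β hβ => ?_⟩
  · rw [hf]; exact le_max_left _ _
  · induction n with
    | zero => exact h0
    | succ n ih => rw [hf]; exact max_lt ih (hep n)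
  · have : β ∈ range e := he ▸ hβ
    obtain ⟨n, rfl⟩ := this
    exact ⟨n + 1, by rw [hf]; exact le_max_right _ _⟩

/-- The stages of the construction. -/
structure h2_St (Ω : Type) (I : Type v) where
  c : Cnd Ω I
  T : Cnd Ω I → Set Ω
  Wb : Finset (FreeGroup I)
  b : FreeGroup I → Ordinal.{0}
  Wu : Finset (FreeGroup I)
  hist : List (Cnd Ω I)
  x : Option Ω

/-- The invariant of the construction. -/
structure h2_Inv (α : Ordinal.{0}) (P : Set (Cnd Ω I)) (T : Cnd Ω I → Set Ω)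
    (W : Finset (FreeGroup I)) (B : FreeGroup I → Ordinal.{0}) (ρ : Ordinal.{0})
    (s : h2_St Ω I) : Prop where
  c : s.c ∈ P
  nm : NmT P s.T
  unb : Unb P s.T s.c
  lim : ∀ q ∈ P, s.T q ⊆ LimT T ρ q
  b : ∀ w ∈ s.Wb, s.b w < α
  bd : ∀ q ∈ P, Le q s.c → ∀ x ∈ s.T q, ∀ w ∈ s.Wb, ∃ y, Acts (Full q) w x y ∧
    q.r y ≤ s.b w + ρ
  ud : ∀ q ∈ P, ∀ x ∈ s.T q, ∀ w ∈ s.Wu, ∀ y, ¬ Acts (Full q) w x y
  hist : s.c ∈ s.hist
  wsub : W ⊆ s.Wb
  wb : ∀ w ∈ W, s.b w = B w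

/-- The transitions of the construction. -/
structure h2_Tr (en : Cnd Ω I → ℕ → FreeGroup I) (n : ℕ) (s s' : h2_St Ω I) : Prop where
  le : Le s'.c s.c
  x : ∃ x, s'.x = some x ∧ x ∈ s.T s'.c ∧ x ∉ s.c.Y
  Wb : s.Wb ⊆ s'.Wb
  b : ∀ w ∈ s.Wb, s'.b w = s.b w
  hist : ∀ c ∈ s.hist, c ∈ s'.hist
  new : ∀ c ∈ s.hist, ∀ k ≤ n, en c k ∈ s'.Wb ∨ en c k ∈ s'.Wu

open Classical in
theorem h2_step (hα : Ind α) {P : Set (Cnd Ω I)} (hb : ∀ p ∈ P, Basic α p) (hsc : SC P)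
    {T : Cnd Ω I → Set Ω} {W : Finset (FreeGroup I)} {B : FreeGroup I → Ordinal.{0}}
    (en : Cnd Ω I → ℕ → FreeGroup I) {ρ σ τ : Ordinal.{0}} (hρ : ρ < α) (hτ : τ = ρ + σ)
    (ih : ∀ {T : Cnd Ω I → Set Ω}, NmT P T → ∀ {p : Cnd Ω I}, p ∈ P → Unb P T p →
      ∀ (W : Finset (FreeGroup I)) (B : FreeGroup I → Ordinal.{0}), (∀ w ∈ W, B w < α) →
      (∀ q ∈ P, Le q p → ∀ x ∈ T q, ∀ w ∈ W, ∃ y, Acts (Full q) w x y ∧ q.r y ≤ B w) →
      Unb P (h2_D T W B σ) p) (n : ℕ) (s : h2_St Ω I) (hs : h2_Inv α P T W B ρ s) :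
    ∃ s' : h2_St Ω I, h2_Inv α P T W B τ s' ∧ h2_Tr en n s s' := by
  obtain ⟨p', hp', hle', x, hx, hxs⟩ := hs.unb s.c hs.c (Le.refl' (hb _ hs.c).gr)
  have hu' : Unb P s.T p' := h2_unb_le hb hp' hle' hs.unb
  have hu1 := ih hs.nm hp' hu' s.Wb (fun w => s.b w + ρ)
    (fun w hw => hα.add _ (hs.b w hw) _ hρ)
    (fun q hq hqp x hx w hw =>
      hs.bd q hq (Le.trans' (hb q hq) (hb p' hp') hqp hle') x hx w hw)
  have hn1 := h2_D_nm hb hs.nm s.Wb (fun w => s.b w + ρ) σ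
  obtain ⟨p2, hp2, hle2, T2, hT2, hsub2, hu2, h2⟩ := h2_pigeon_list hα hb hsc
    (s.hist.flatMap fun c => (List.range (n + 1)).map (en c)) hn1 hp' hu1
  have hle : Le p2 s.c := Le.trans' (hb p2 hp2) (hb p' hp') hle2 hle'
  set L := s.hist.flatMap fun c => (List.range (n + 1)).map (en c) with hL
  let Q : FreeGroup I → Ordinal.{0} → Prop := fun w β =>
    β < α ∧ ∀ q ∈ P, ∀ x ∈ T2 q, ∃ y, Acts (Full q) w x y ∧ q.r y ≤ β
  let b' : FreeGroup I → Ordinal.{0} := fun w =>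
    if w ∈ s.Wb then s.b w else if h : ∃ β, Q w β then h.choose else 0
  have hb1 : ∀ w ∈ s.Wb, b' w = s.b w := fun w hw => by simp only [b', if_pos hw]
  have hb2 : ∀ w, w ∉ s.Wb → (∃ β, Q w β) → Q w (b' w) := fun w hw h => by
    have : b' w = h.choose := by simp only [b', if_neg hw, dif_pos h]
    rw [this]
    exact h.choose_spec
  refine ⟨⟨p2, T2, s.Wb ∪ L.toFinset.filter (fun w => ∃ β, Q w β), b',
    L.toFinset.filter (fun w => ¬ ∃ β, Q w β), p2 :: s.hist, some x⟩, ?_, ?_⟩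
  · refine ⟨hp2, hT2, hu2, fun q hq => ?_, fun w hw => ?_, fun q hq hqp z hz w hw => ?_,
      fun q hq z hz w hw => ?_, List.mem_cons_self, fun w hw => ?_, fun w hw => ?_⟩
    · subst hτ
      exact fun z hz => h2_limT_add hb hs.lim hq (hsub2 q hz).1
    · by_cases hws : w ∈ s.Wb
      · show b' w < α
        rw [hb1 w hws]
        exact hs.b w hws
      · have hw2 : ∃ β, Q w β := by
          rcases Finset.mem_union.1 hw with h | h
          · exact absurd h hws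
          · exact (Finset.mem_filter.1 h).2
        exact (hb2 w hws hw2).1
    · by_cases hws : w ∈ s.Wb
      · obtain ⟨y, hy, hr⟩ := (hsub2 q hz).2 w hws
        refine ⟨y, hy, ?_⟩
        show q.r y ≤ b' w + τ
        rw [hb1 w hws, hτ, ← add_assoc]
        exact hr
      · have hw2 : ∃ β, Q w β := by
          rcases Finset.mem_union.1 hw with h | h
          · exact absurd h hws
          · exact (Finset.mem_filter.1 h).2
        obtain ⟨y, hy, hr⟩ := (hb2 w hws hw2).2 q hq z hz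
        exact ⟨y, hy, hr.trans (le_self_add)⟩
    · obtain ⟨hwL, hw2⟩ := Finset.mem_filter.1 hw
      rcases h2 w (List.mem_toFinset.1 hwL) with h | h
      · exact absurd h hw2
      · exact h q hq z hz
    · exact Finset.mem_union_left _ (hs.wsub hw)
    · show b' w = B w
      rw [hb1 w (hs.wsub hw), hs.wb w hw]
  · refine ⟨hle, ⟨x, rfl, hs.nm.2 p' hp' p2 hp2 hle2 hx, hxs⟩, Finset.subset_union_left, hb1,
      fun c hc => List.mem_cons_of_mem _ hc, fun c hc k hk => ?_⟩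
    have hmem : en c k ∈ L := by
      rw [hL, List.mem_flatMap]
      exact ⟨c, hc, List.mem_map.2 ⟨k, List.mem_range.2 (by omega), rfl⟩⟩
    by_cases h : ∃ β, Q (en c k) β
    · exact Or.inl (Finset.mem_union_right _
        (Finset.mem_filter.2 ⟨List.mem_toFinset.2 hmem, h⟩))
    · exact Or.inr (Finset.mem_filter.2 ⟨List.mem_toFinset.2 hmem, h⟩)

theorem h2_chain {S : Type v} {J : ℕ → S → Prop} {Q : ℕ → S → S → Prop} {s0 : S} (h0 : J 0 s0)
    (h : ∀ n s, J n s → ∃ s', J (n + 1) s' ∧ Q n s s') :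
    ∃ f : ℕ → S, f 0 = s0 ∧ (∀ n, J n (f n)) ∧ ∀ n, Q n (f n) (f (n + 1)) := by
  classical
  choose! g hg using h
  let f : ℕ → S := fun n => Nat.rec s0 (fun n s => g n s) n
  have hJ : ∀ n, J n (f n) := by
    intro n
    induction n with
    | zero => exact h0
    | succ n ih => exact (hg n (f n) ih).1
  exact ⟨f, rfl, hJ, fun n => (hg n (f n) (hJ n)).2⟩

theorem s_lemma (hα : Ind α) {P : Set (Cnd Ω I)} (hb : ∀ p ∈ P, Basic α p) (hsc : SC P)
    (hlim : LimSpec α P) {ρ : Ordinal.{0}} (hρ : ρ < α) {T : Cnd Ω I → Set Ω} (hT : NmT P T)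
    {p : Cnd Ω I} (hp : p ∈ P) (hu : Unb P T p) (W : Finset (FreeGroup I))
    (B : FreeGroup I → Ordinal.{0}) (hB : ∀ w ∈ W, B w < α)
    (hW : ∀ q ∈ P, Le q p → ∀ x ∈ T q, ∀ w ∈ W, ∃ y, Acts (Full q) w x y ∧ q.r y ≤ B w) :
    Unb P (fun q => {x | x ∈ LimT T ρ q ∧
      ∀ w ∈ W, ∃ y, Acts (Full q) w x y ∧ q.r y ≤ B w + ρ}) p := by
  show Unb P (h2_D T W B ρ) p
  induction ρ using WellFoundedLT.induction generalizing T p W B with
  | _ ρ IH =>
    rcases eq_or_ne ρ 0 with rfl | hρ0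
    · intro q hq hqp
      obtain ⟨q', hq', hle, x, hx, hxq⟩ := hu q hq hqp
      refine ⟨q', hq', hle, x, ⟨⟨hT.1 q' hq' hx, fun E hE hTE r' hr' => ⟨hTE hx, ?_⟩⟩,
        fun w hw => ?_⟩, hxq⟩
      · exact zero_le
      · rw [add_zero]
        exact hW q' hq' (Le.trans' (hb q' hq') (hb q hq) hle hqp) x hx w hw
    · intro q0 hq0 hq0p
      have hpos : 0 < ρ := pos_iff_ne_zero.2 hρ0
      obtain ⟨f, hf0, hfm, hfρ, hfc⟩ := h2_seq hpos (hα.ctb.mono fun x hx => lt_trans hx hρ)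
      have hen : ∀ c : Cnd Ω I, ∃ e : ℕ → FreeGroup I, c ∈ P →
          (Subgroup.closure (FreeGroup.of '' c.S) : Set (FreeGroup I)) = range e := by
        intro c
        by_cases hc : c ∈ P
        · obtain ⟨e, he⟩ := (countable_closure (hb c hc).cS).exists_eq_range
            ⟨1, Subgroup.one_mem _⟩
          exact ⟨e, fun _ => he⟩
        · exact ⟨fun _ => 1, fun h => absurd h hc⟩
      choose en hen using hen
      have hfα : ∀ n, f n < α := fun n => (hfρ n).trans hρ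
      let s0 : h2_St Ω I := ⟨q0, T, W, B, ∅, [q0], none⟩
      have h0 : h2_Inv α P T W B (f 0) s0 := by
        refine ⟨hq0, hT, h2_unb_le hb hq0 hq0p hu, fun q hq x hx => ?_, hB,
          fun q hq hqp x hx w hw => ?_, fun q hq x hx w hw => ?_, List.mem_singleton.2 rfl,
          fun w hw => hw, fun w hw => rfl⟩
        · refine ⟨hT.1 q hq hx, fun E hE hTE r' hr' => ⟨hTE hx, ?_⟩⟩
          rw [hf0]; exact zero_le
        · rw [hf0, add_zero]
          exact hW q hq (Le.trans' (hb q hq) (hb q0 hq0) hqp hq0p) x hx w hw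
        · exact absurd hw (Finset.notMem_empty w)
      obtain ⟨s, hs0, hinv, htr⟩ := h2_chain (J := fun n s => h2_Inv α P T W B (f n) s)
        (Q := fun n s s' => h2_Tr en n s s') h0 (fun n s hs => by
          have hσ : f (n + 1) - f n < ρ :=
            (Ordinal.sub_le_self _ _).trans_lt (hfρ (n + 1))
          exact h2_step hα hb hsc en (hfα n)
            (Ordinal.add_sub_cancel_of_le (hfm n.le_succ)).symm
            (fun {T} hT {p} hp hu W B hB hW => IH _ hσ (hσ.trans hρ) hT hp hu W B hB hW)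
            n s hs)
      choose xn hxn using fun n => (htr n).x
      have hle : ∀ n, Le (s (n + 1)).c (s n).c := fun n => (htr n).le
      have hPs : ∀ n, (s n).c ∈ P := fun n => (hinv n).c
      have hxmem : ∀ n, xn n ∈ (s (n + 1)).c.Y := fun n =>
        (hinv n).nm.1 _ (hPs (n + 1)) (hxn n).2.1
      have hWbm : ∀ m n, m ≤ n → (s m).Wb ⊆ (s n).Wb ∧ ∀ w ∈ (s m).Wb, (s n).b w = (s m).b w := by
        intro m n hmn
        induction n, hmn using Nat.le_induction with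
        | base => exact ⟨subset_rfl, fun w hw => rfl⟩
        | succ n hmn ih =>
          exact ⟨ih.1.trans (htr n).Wb, fun w hw => by rw [(htr n).b w (ih.1 hw), ih.2 w hw]⟩
      have hhist : ∀ m n, m ≤ n → (s m).c ∈ (s n).hist := by
        intro m n hmn
        induction n, hmn using Nat.le_induction with
        | base => exact (hinv m).hist
        | succ n hmn ih => exact (htr n).hist _ ih
      obtain ⟨q, hq, hqle, x, hxq, hxn', hnb, hwd⟩ := hlim (fun n => (s n).c) xn hPs hle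
        (fun n => ⟨hxmem n, (hxn n).2.2⟩) (fun w => by
          by_cases h1 : ∃ m, w ∈ (s m).Wb
          · obtain ⟨m, hm⟩ := h1
            refine Or.inl ⟨m, (s m).b w + ρ, hα.add _ ((hinv m).b w hm) _ hρ, fun n hn => ?_⟩
            obtain ⟨h2, h3⟩ := hWbm m n hn
            obtain ⟨y, hy, hr⟩ := (hinv n).bd _ (hPs (n + 1)) (hle n) _ (hxn n).2.1 w (h2 hm)
            refine ⟨y, hy, hr.trans ?_⟩
            rw [h3 w hm]
            gcongr
            exact (hfρ n).le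
          · by_cases h4 : ∃ m, w ∈ Subgroup.closure (FreeGroup.of '' (s m).c.S)
            · obtain ⟨m, hm⟩ := h4
              have h5 : w ∈ range (en (s m).c) := by
                rw [← hen _ (hPs m)]
                exact hm
              obtain ⟨k, rfl⟩ := h5
              refine Or.inr ⟨max m k + 1, fun n hn y => ?_⟩
              obtain ⟨n, rfl⟩ : ∃ n', n = n' + 1 := ⟨n - 1, by omega⟩
              have h6 := (htr n).new _ (hhist m n (by omega)) k (by omega)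
              rcases h6 with h6 | h6
              · exact absurd ⟨n + 1, h6⟩ h1
              · exact (hinv (n + 1)).ud _ (hPs (n + 1 + 1)) _ (hxn (n + 1)).2.1 _ h6 y
            · refine Or.inr ⟨0, fun n _ y hy => h4 ⟨n + 1, ?_⟩⟩
              exact Acts.letters (fun i x y h => h.1) hy)
      have hxT : ∀ n, xn n ∈ LimT T (f n) q := fun n =>
        (hinv n).lim q hq ((hinv n).nm.2 _ (hPs (n + 1)) q hq (hqle (n + 1)) (hxn n).2.1)
      have hLim : x ∈ LimT T ρ q := by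
        refine ⟨hxq, fun E hE hTE r' hr' => ?_⟩
        have hxE : x ∈ E := by
          by_contra hne
          obtain ⟨K, hK, hxK, hKE⟩ := hE.2 x hxq hne
          obtain ⟨N, hN⟩ := hnb K hK hxK
          have h7 : xn N ∈ K ∩ E := ⟨hN N le_rfl, ((hxT N).2 E hE hTE r' hr').1⟩
          rw [hKE] at h7
          exact h7
        refine ⟨hxE, ?_⟩
        by_contra hlt
        obtain ⟨m, hm⟩ := hfc (r' x) (not_le.1 hlt)
        obtain ⟨K0, hK0, hxK0⟩ := hr'.cov x hxE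
        obtain ⟨K', ⟨K, hK, rfl⟩, -, hxK', hK'⟩ := hr'.nbhd hK0 hxK0
        obtain ⟨N, hN⟩ := hnb K hK hxK'.1
        have h8 := (hxT (max m N)).2 E hE hTE r' hr'
        have h9 : xn (max m N) ≠ x := fun h =>
          hxn' (max m N + 1) (h ▸ hxmem (max m N))
        have h10 := hK' _ ⟨hN _ (le_max_right _ _), h8.1⟩ h9
        exact absurd (hm.trans ((hfm (le_max_left m N)).trans h8.2)) (not_le.2 h10)
      refine ⟨q, hq, by simpa [hs0] using hqle 0, x, ⟨hLim, fun w hw => ?_⟩, by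
        simpa [hs0] using hxn' 0⟩
      refine hwd w (B w + ρ) ⟨0, fun n _ => ?_⟩
      obtain ⟨y, hy, hr⟩ := (hinv n).bd _ (hPs (n + 1)) (hle n) _ (hxn n).2.1 w
        ((hinv n).wsub hw)
      refine ⟨y, hy, hr.trans_lt ?_⟩
      rw [(hinv n).wb w hw]
      exact add_lt_add_right (hfρ n) _

end Pool.Agent.Helper33.QB
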